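import Mathlib
import Pool.Agent.H77.GEPP.Main

/-!
# MP_42c79c_an: the smoothed growth factor of partial pivoting has no exponential tail

For every `c > 0` there is `K` such that for all large `n`, every noise level `0 < σ ≤ 1` and EVERY
centre `Ā` with `‖Ā‖₂ ≤ 1`, Gaussian elimination with partial pivoting has growth factor larger than
`n ^ c` on `Ā + σ G` with probability at least `exp (-K (log n)² (log n + σ⁻²))` (`part1`). Hence the
bound `2 ^ (-c₂ x)` of Q1 fails for all large `n`, for every centre and for all `x` between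
`(log n)⁴ / σ²` and any fixed power of `n` (`result`), and Q1 has a negative answer.

Proof. Let `N` be the upper integer part of `κ log n`, `κ` large, and `M = 10 (1 + 2 σ √(log (2 n)))`.
With at least the stated probability the leading `(N+1) × (N+1)` block of `Ā + σ G` is within
`M 4⁻ᴺ / 10` of `M` times Wilkinson's matrix and all other entries are at most `M / 10` in absolute
value. Then the first `N + 1` pivots are forced, and the last of them is at least `0.9 M (3/2)ᴺ`.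
-/

set_option autoImplicit false
open MeasureTheory ProbabilityTheory

namespace Pool.Agent.Results.MP_42c79c_an.QuasiPolynomialTail

/-- The maximum absolute row sum `‖A‖_∞`. -/
noncomputable def rowNorm {n : ℕ} (A : Matrix (Fin n) (Fin n) ℝ) : ℝ :=
  ⨆ i, ∑ j, |A i j|

/-- The spectral norm of `A` is at most `1`. -/
def SpectralNormLeOne {n : ℕ} (A : Matrix (Fin n) (Fin n) ℝ) : Prop :=
  ∀ v : Fin n → ℝ, ∑ i, (A.mulVec v i) ^ 2 ≤ ∑ i, v i ^ 2

/-- `P A = L U`, where `P` permutes the rows, is an outcome of Gaussian elimination with partial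
pivoting: `L` is unit lower triangular with entries of absolute value at most `1`, and `U` is upper
triangular. -/
structure IsOutcome {n : ℕ} (A : Matrix (Fin n) (Fin n) ℝ) (π : Equiv.Perm (Fin n))
    (L U : Matrix (Fin n) (Fin n) ℝ) : Prop where
  diag : ∀ i, L i i = 1
  lower : ∀ i j, i < j → L i j = 0
  le_one : ∀ i j, |L i j| ≤ 1
  upper : ∀ i j, j < i → U i j = 0
  eq : A.submatrix π id = L * U

/-- The growth factor of partial pivoting on `A` is larger than `y`, for every way to break ties: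
there is an outcome, and `‖U‖_∞ > y ‖A‖_∞` for all outcomes `P A = L U`. -/
def GrowthGT {n : ℕ} (A : Matrix (Fin n) (Fin n) ℝ) (y : ℝ) : Prop :=
  (∃ π L U, IsOutcome A π L U) ∧ ∀ π L U, IsOutcome A π L U → y * rowNorm A < rowNorm U

/-- The law of `n²` independent standard normal variables. -/
noncomputable def gaussian (n : ℕ) : Measure (Fin n → Fin n → ℝ) :=
  Measure.pi fun _ => Measure.pi fun _ => gaussianReal 0 1

/-- The matrix `Ā + σ G`. -/
def perturb {n : ℕ} (Abar : Matrix (Fin n) (Fin n) ℝ) (σ : ℝ) (G : Fin n → Fin n → ℝ) :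
    Matrix (Fin n) (Fin n) ℝ :=
  Matrix.of fun i j => Abar i j + σ * G i j

private theorem entry_le {n : ℕ} {A : Matrix (Fin n) (Fin n) ℝ} (h : SpectralNormLeOne A)
    (i j : Fin n) : |A i j| ≤ 1 := by
  have h1 := h (Pi.single j 1)
  have h2 : ∑ k, (Pi.single j (1:ℝ) : Fin n → ℝ) k ^ 2 = 1 := by
    rw [Finset.sum_eq_single j]
    · simp
    · intro b _ hb
      simp [hb]
    · simp
  have h3 : (A i j) ^ 2 ≤ ∑ k, (A.mulVec (Pi.single j 1) k) ^ 2 := by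
    have := Finset.single_le_sum (f := fun k => (A.mulVec (Pi.single j (1:ℝ)) k) ^ 2)
      (fun _ _ => sq_nonneg _) (Finset.mem_univ i)
    simpa using this
  rw [h2] at h1
  rw [← sq_le_one_iff_abs_le_one]
  linarith

private theorem pp_of_outcome {n : ℕ} {A : Matrix (Fin n) (Fin n) ℝ} {π : Equiv.Perm (Fin n)}
    {L U : Matrix (Fin n) (Fin n) ℝ} (h : IsOutcome A π L U) : H77.GEPP.PP A π L U := by
  refine ⟨h.diag, h.lower, h.le_one, h.upper, fun i j => ?_⟩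
  have h1 := congrFun (congrFun h.eq i) j
  rw [Matrix.mul_apply] at h1
  exact h1

private theorem outcome_exists {n : ℕ} (A : Matrix (Fin n) (Fin n) ℝ) :
    ∃ π L U, IsOutcome A π L U := by
  obtain ⟨π, L, U, h⟩ := H77.GEPP.PP.exists A
  refine ⟨π, L, U, h.diag, h.low, h.le, h.up, ?_⟩
  ext i j
  rw [Matrix.mul_apply]
  exact h.eq i j

private theorem rowNorm_nonneg {n : ℕ} (A : Matrix (Fin n) (Fin n) ℝ) : 0 ≤ rowNorm A :=
  Real.iSup_nonneg fun _ => Finset.sum_nonneg fun _ _ => abs_nonneg _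

private theorem part1 (c : ℝ) (hc : 0 < c) : ∃ K : ℝ, 0 < K ∧ ∃ n₀ : ℕ, ∀ n : ℕ, n₀ ≤ n →
    ∀ Abar : Matrix (Fin n) (Fin n) ℝ, SpectralNormLeOne Abar → ∀ σ : ℝ, 0 < σ → σ ≤ 1 →
    ENNReal.ofReal (Real.exp (-(K * Real.log n ^ 2 * (Real.log n + 1 / σ ^ 2)))) ≤
      gaussian n {G | GrowthGT (perturb Abar σ G) ((n:ℝ) ^ c)} := by
  obtain ⟨K, hK, n₀, h⟩ := H77.GEPP.main c hc
  refine ⟨K, hK, n₀, fun n hn Abar hA σ hσ hσ1 => ?_⟩
  obtain ⟨S, hS1, hS2⟩ := h n hn σ hσ hσ1 Abar (entry_le hA)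
  refine hS1.trans (measure_mono fun G hG => ⟨outcome_exists _, fun π L U hP => ?_⟩)
  exact hS2 G hG π L U (pp_of_outcome hP)

private theorem part2 (c₁ c₂ a b : ℝ) (hc₁ : 0 < c₁) (hc₂ : 0 < c₂) (ha : 0 < a) (hb : 0 < b) :
    ∃ n₀ : ℕ, ∀ n : ℕ, n₀ ≤ n →
    ∀ Abar : Matrix (Fin n) (Fin n) ℝ, SpectralNormLeOne Abar →
    ∀ σ : ℝ, (n:ℝ) ^ (-b) ≤ σ → σ ≤ 1 →
    ∀ x : ℝ, Real.log n ^ 4 / σ ^ 2 ≤ x → x ≤ (n:ℝ) ^ a →
    ENNReal.ofReal ((2:ℝ) ^ (-(c₂ * x))) <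
      gaussian n {G | GrowthGT (perturb Abar σ G) (x * ((n:ℝ) / σ) ^ c₁)} := by
  obtain ⟨K, hK, n₀, h⟩ := part1 (a + (1 + b) * c₁) (by positivity)
  have hlog2 : 0 < Real.log 2 := Real.log_pos (by norm_num)
  have hev : ∀ᶠ n : ℕ in Filter.atTop, max 1 (2 * K / (c₂ * Real.log 2) + 1) ≤ Real.log n :=
    (Real.tendsto_log_atTop.comp tendsto_natCast_atTop_atTop).eventually_ge_atTop _
  obtain ⟨n₁, hn₁⟩ := Filter.eventually_atTop.mp hev
  refine ⟨max n₀ n₁, fun n hn Abar hA σ hσb hσ1 x hx1 hx2 => ?_⟩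
  have hL := hn₁ n ((le_max_right _ _).trans hn)
  have hL1 : 1 ≤ Real.log n := (le_max_left _ _).trans hL
  have hL2 : 2 * K / (c₂ * Real.log 2) < Real.log n := by
    have := (le_max_right (1:ℝ) _).trans hL
    linarith
  have hn0 : n ≠ 0 := by
    rintro rfl
    simp at hL1
    linarith
  have hnpos : (0:ℝ) < n := by positivity
  have hn1 : (1:ℝ) ≤ n := by exact_mod_cast Nat.one_le_iff_ne_zero.mpr hn0
  have hσ : 0 < σ := lt_of_lt_of_le (Real.rpow_pos_of_pos hnpos _) hσb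
  have hxpos : 0 < x := lt_of_lt_of_le (by positivity) hx1
  -- the threshold is at most a power of `n`
  have hthr : x * ((n:ℝ) / σ) ^ c₁ ≤ (n:ℝ) ^ (a + (1 + b) * c₁) := by
    have h1 : (n:ℝ) / σ ≤ (n:ℝ) ^ (1 + b) := by
      rw [div_le_iff₀ hσ]
      calc (n:ℝ) = (n:ℝ) ^ (1 + b) * (n:ℝ) ^ (-b) := by
            rw [← Real.rpow_add hnpos, add_neg_cancel_right, Real.rpow_one]
        _ ≤ _ := mul_le_mul_of_nonneg_left hσb (Real.rpow_nonneg hnpos.le _)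
    rw [Real.rpow_add hnpos, Real.rpow_mul hnpos.le]
    exact mul_le_mul hx2 (Real.rpow_le_rpow (by positivity) h1 hc₁.le) (by positivity)
      (Real.rpow_nonneg hnpos.le _)
  have hsub : {G | GrowthGT (perturb Abar σ G) ((n:ℝ) ^ (a + (1 + b) * c₁))} ⊆
      {G | GrowthGT (perturb Abar σ G) (x * ((n:ℝ) / σ) ^ c₁)} := by
    intro G hG
    refine ⟨hG.1, fun π L U hP => lt_of_le_of_lt ?_ (hG.2 π L U hP)⟩
    exact mul_le_mul_of_nonneg_right hthr (rowNorm_nonneg _)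
  refine lt_of_lt_of_le ?_ ((h n ((le_max_left _ _).trans hn) Abar hA σ hσ hσ1).trans
    (measure_mono hsub))
  rw [ENNReal.ofReal_lt_ofReal_iff (Real.exp_pos _), Real.rpow_def_of_pos (by norm_num)]
  apply Real.exp_lt_exp.mpr
  set L := Real.log n with hLdef
  have hs : 0 < 1 / σ ^ 2 := by positivity
  have hs1 : 1 ≤ 1 / σ ^ 2 := by
    rw [le_div_iff₀ (by positivity), one_mul]
    exact pow_le_one₀ hσ.le hσ1
  have hb1 : L + 1 / σ ^ 2 ≤ 2 * L * (1 / σ ^ 2) := by nlinarith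
  have hb2 : K * L ^ 2 * (L + 1 / σ ^ 2) ≤ K * L ^ 2 * (2 * L * (1 / σ ^ 2)) :=
    mul_le_mul_of_nonneg_left hb1 (by positivity)
  have hb3 : 2 * K < c₂ * Real.log 2 * L := by
    rw [div_lt_iff₀ (by positivity)] at hL2
    linarith
  have hb4 : 2 * K * (L ^ 3 * (1 / σ ^ 2)) < c₂ * Real.log 2 * L * (L ^ 3 * (1 / σ ^ 2)) :=
    mul_lt_mul_of_pos_right hb3 (by positivity)
  have hb5 : c₂ * Real.log 2 * (L ^ 4 / σ ^ 2) ≤ c₂ * Real.log 2 * x :=
    mul_le_mul_of_nonneg_left hx1 (by positivity)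
  have e1 : K * L ^ 2 * (2 * L * (1 / σ ^ 2)) = 2 * K * (L ^ 3 * (1 / σ ^ 2)) := by ring
  have e2 : c₂ * Real.log 2 * (L ^ 4 / σ ^ 2) = c₂ * Real.log 2 * L * (L ^ 3 * (1 / σ ^ 2)) := by
    ring
  have e3 : Real.log 2 * -(c₂ * x) = -(c₂ * Real.log 2 * x) := by ring
  rw [e3]
  linarith

/-- For all `c₁, c₂, a, b > 0` and all large `n`: the bound `2 ^ (-c₂ x)` of Q1 fails for EVERY centre
`Ā` with `‖Ā‖₂ ≤ 1`, every `n ^ (-b) ≤ σ ≤ 1` and every `x` between `(log n)⁴ / σ²` and `n ^ a` (for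
`σ = 1` this range contains `x = (log n)⁴`, and `(log n)⁴ ≥ 1`). -/
theorem result (c₁ c₂ a b : ℝ) (hc₁ : 0 < c₁) (hc₂ : 0 < c₂) (ha : 0 < a) (hb : 0 < b) :
    ∃ n₀ : ℕ, ∀ n : ℕ, n₀ ≤ n →
      1 ≤ Real.log n ^ 4 ∧ Real.log n ^ 4 ≤ (n:ℝ) ^ a ∧
      ∀ Abar : Matrix (Fin n) (Fin n) ℝ, SpectralNormLeOne Abar →
      ∀ σ : ℝ, (n:ℝ) ^ (-b) ≤ σ → σ ≤ 1 →
      ∀ x : ℝ, Real.log n ^ 4 / σ ^ 2 ≤ x → x ≤ (n:ℝ) ^ a →
      ENNReal.ofReal ((2:ℝ) ^ (-(c₂ * x))) <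
        gaussian n {G | GrowthGT (perturb Abar σ G) (x * ((n:ℝ) / σ) ^ c₁)} := by
  obtain ⟨n₀, hn₀⟩ := part2 c₁ c₂ a b hc₁ hc₂ ha hb
  have h1 : ∀ᶠ x : ℝ in Filter.atTop, ‖Real.log x ^ (4:ℝ)‖ ≤ 1 * ‖x ^ a‖ :=
    (isLittleO_log_rpow_rpow_atTop 4 ha).bound one_pos
  have h2 : ∀ᶠ x : ℝ in Filter.atTop, 1 ≤ Real.log x :=
    Real.tendsto_log_atTop.eventually_ge_atTop 1
  have h3 := (tendsto_natCast_atTop_atTop (R := ℝ)).eventually (h1.and h2)
  obtain ⟨n₁, hn₁⟩ := Filter.eventually_atTop.mp h3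
  refine ⟨max n₀ n₁, fun n hn => ?_⟩
  obtain ⟨h4, h5⟩ := hn₁ n ((le_max_right _ _).trans hn)
  refine ⟨one_le_pow₀ h5, ?_, hn₀ n ((le_max_left _ _).trans hn)⟩
  rw [Real.norm_of_nonneg (Real.rpow_nonneg (by linarith) _), one_mul,
    Real.norm_of_nonneg (Real.rpow_nonneg (Nat.cast_nonneg _) _)] at h4
  rwa [← Real.rpow_natCast]

end Pool.Agent.Results.MP_42c79c_an.QuasiPolynomialTail
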